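import Mathlib
import Pool.Agent.H8.GG.Defs
import Pool.Agent.H8.GG.PerfFinal

set_option autoImplicit false

namespace Pool.Agent.Results.MP_590c78_gt.Perfect

open Pool.Agent.H8.GG

theorem result : ∃ (X Y : Type) (_ : TopologicalSpace X) (_ : TopologicalSpace Y) (f : X → Y),
    T35Space X ∧ T35Space Y ∧ Continuous f ∧ IsClosedMap f ∧ Function.Surjective f ∧
    (∀ y, IsCompact (f ⁻¹' {y})) ∧ Grothendieck Y ∧ WeaklyGrothendieck Y ∧
    ¬ Grothendieck X ∧ ¬ WeaklyGrothendieck X :=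
  perf_thm

end Pool.Agent.Results.MP_590c78_gt.Perfect
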